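import Mathlib

set_option autoImplicit false

namespace Pool.Agent.Results.MP_8ae111_al.JordanCounterexample

/-- A Jordan ring: a not necessarily unital, not necessarily associative ring with `xy = yx` and
`(x²y)x = x²(yx)`. -/
def IsJordanRing (A : Type) [NonUnitalNonAssocRing A] : Prop :=
  (∀ x y : A, x * y = y * x) ∧ ∀ x y : A, ((x * x) * y) * x = (x * x) * (y * x)

/-- The complete linearisation of the Jordan identity. -/
def IsLinJordan (A : Type) [NonUnitalNonAssocRing A] : Prop :=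
  ∀ x z w y : A, ((x * z) * y) * w + ((z * w) * y) * x + ((w * x) * y) * z =
    (x * z) * (y * w) + (z * w) * (y * x) + (w * x) * (y * z)

/-- The additive subgroup generated by all products `xy`, `x ∈ X`, `y ∈ Y`. -/
def mulSpan {A : Type} [NonUnitalNonAssocRing A] (X Y : AddSubgroup A) : AddSubgroup A :=
  AddSubgroup.closure {z | ∃ x ∈ X, ∃ y ∈ Y, z = x * y}

/-- The derived series `B⁽¹⁾ = B`, `B⁽ᵏ⁺¹⁾ = B⁽ᵏ⁾B⁽ᵏ⁾` (indexed from zero). -/
def derived {A : Type} [NonUnitalNonAssocRing A] (B : AddSubgroup A) : ℕ → AddSubgroup A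
  | 0 => B
  | k + 1 => mulSpan (derived B k) (derived B k)

/-- `B` is solvable. -/
def IsSolv {A : Type} [NonUnitalNonAssocRing A] (B : AddSubgroup A) : Prop :=
  ∃ k, derived B k = ⊥

/-- The fixed subring of a group of ring automorphisms (as an additive subgroup). -/
def fixedSub {A : Type} [NonUnitalNonAssocRing A] (G : Subgroup (RingAut A)) : AddSubgroup A where
  carrier := {a | ∀ g ∈ G, g a = a}
  zero_mem' := fun g _ => map_zero g
  add_mem' := fun {a b} ha hb g hg => by rw [map_add, ha g hg, hb g hg]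
  neg_mem' := fun {a} ha g hg => by rw [map_neg, ha g hg]

/-- the eight element ring -/
@[ext] structure V : Type where
  a : ZMod 2
  b : ZMod 2
  c : ZMod 2
deriving DecidableEq, Fintype

namespace V

instance : Zero V := ⟨⟨0, 0, 0⟩⟩
instance : Add V := ⟨fun x y => ⟨x.a + y.a, x.b + y.b, x.c + y.c⟩⟩
instance : Neg V := ⟨fun x => ⟨-x.a, -x.b, -x.c⟩⟩
instance : Mul V := ⟨fun x y =>
  ⟨x.b * y.c + x.c * y.b, x.c * y.a + x.a * y.c, x.a * y.b + x.b * y.a⟩⟩

@[simp] lemma zero_a : (0 : V).a = 0 := rfl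
@[simp] lemma zero_b : (0 : V).b = 0 := rfl
@[simp] lemma zero_c : (0 : V).c = 0 := rfl
@[simp] lemma add_a (x y : V) : (x + y).a = x.a + y.a := rfl
@[simp] lemma add_b (x y : V) : (x + y).b = x.b + y.b := rfl
@[simp] lemma add_c (x y : V) : (x + y).c = x.c + y.c := rfl
@[simp] lemma neg_a (x : V) : (-x).a = -x.a := rfl
@[simp] lemma neg_b (x : V) : (-x).b = -x.b := rfl
@[simp] lemma neg_c (x : V) : (-x).c = -x.c := rfl
@[simp] lemma mul_a (x y : V) : (x * y).a = x.b * y.c + x.c * y.b := rfl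
@[simp] lemma mul_b (x y : V) : (x * y).b = x.c * y.a + x.a * y.c := rfl
@[simp] lemma mul_c (x y : V) : (x * y).c = x.a * y.b + x.b * y.a := rfl

instance : NonUnitalNonAssocRing V where
  add_assoc x y z := by ext <;> simp [add_assoc]
  zero_add x := by ext <;> simp
  add_zero x := by ext <;> simp
  add_comm x y := by ext <;> simp [add_comm]
  neg_add_cancel x := by ext <;> simp [CharTwo.add_self_eq_zero]
  nsmul := nsmulRec
  zsmul := zsmulRec
  left_distrib x y z := by ext <;> simp <;> ring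
  right_distrib x y z := by ext <;> simp <;> ring
  zero_mul x := by ext <;> simp
  mul_zero x := by ext <;> simp

/-- the cyclic automorphism -/
def rot : RingAut V where
  toFun x := ⟨x.b, x.c, x.a⟩
  invFun x := ⟨x.c, x.a, x.b⟩
  left_inv x := rfl
  right_inv x := rfl
  map_mul' x y := by ext <;> simp
  map_add' x y := by ext <;> simp

lemma two_z (u : ZMod 2) : u + u = 0 := by revert u; decide

lemma jordan : IsJordanRing V := by
  refine ⟨fun x y => ?_, fun x y => ?_⟩
  · ext <;> simp <;> ring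
  · have h : x * x = 0 := by
      ext
      · simp only [mul_a, mul_comm x.c, two_z, zero_a]
      · simp only [mul_b, mul_comm x.c, two_z, zero_b]
      · simp only [mul_c, mul_comm x.b, two_z, zero_c]
    rw [h]; simp

lemma lin : IsLinJordan V := by
  unfold IsLinJordan
  intro x z w y
  have h2 : (2 : ZMod 2) = 0 := by decide
  ext
  · simp only [add_a, mul_a, mul_b, mul_c]
    linear_combination (-(x.a * z.b * y.c * w.a) - x.a * z.a * y.c * w.b
      - x.a * z.a * w.c * y.b - x.a * z.c * y.b * w.a + z.b * x.b * w.c * y.b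
      + z.b * x.c * y.c * w.c + z.b * x.c * y.b * w.b - x.b * z.a * y.c * w.a
      + x.b * z.c * y.c * w.c + x.b * z.c * y.b * w.b - z.a * x.c * y.b * w.a
      + z.c * x.c * y.c * w.b) * h2
  · simp only [add_b, mul_a, mul_b, mul_c]
    linear_combination (-(x.b * z.c * y.a * w.b) - x.b * z.b * y.a * w.c
      - x.b * z.b * w.a * y.c - x.b * z.a * y.c * w.b + z.c * x.c * w.a * y.c
      + z.c * x.a * y.a * w.a + z.c * x.a * y.c * w.c - x.c * z.b * y.a * w.b
      + x.c * z.a * y.a * w.a + x.c * z.a * y.c * w.c - z.b * x.a * y.c * w.b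
      + z.a * x.a * y.a * w.c) * h2
  · simp only [add_c, mul_a, mul_b, mul_c]
    linear_combination (-(x.c * z.a * y.b * w.c) - x.c * z.c * y.b * w.a
      - x.c * z.c * w.b * y.a - x.c * z.b * y.a * w.c + z.a * x.a * w.b * y.a
      + z.a * x.b * y.b * w.b + z.a * x.b * y.a * w.a - x.a * z.c * y.b * w.c
      + x.a * z.b * y.b * w.b + x.a * z.b * y.a * w.a - z.c * x.b * y.a * w.c
      + z.b * x.b * y.b * w.a) * h2

lemma rot3 : rot ^ 3 = 1 := by
  apply RingEquiv.ext
  intro x
  rfl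

lemma card_zp : Nat.card (Subgroup.zpowers rot) = 3 := by
  rw [Nat.card_zpowers]
  apply orderOf_eq_prime rot3
  intro h
  have h1 : rot ⟨1, 0, 0⟩ = (1 : RingAut V) ⟨1, 0, 0⟩ := by rw [h]
  have h2 : (rot ⟨1, 0, 0⟩ : V).a = 1 := by rw [h1]; rfl
  exact absurd h2 (by decide)

lemma tors (x : V) (h : 3 • x = 0) : x = 0 := by
  have h3 : 3 • x = x := by
    have : 3 • x = x + x + x := by
      rw [show (3 : ℕ) = 2 + 1 from rfl, add_nsmul, two_nsmul, one_nsmul]
    rw [this]
    ext <;> simp [CharTwo.add_self_eq_zero]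
  rwa [h3] at h

lemma fixed_mul (x y : V) (hx : rot x = x) (hy : rot y = y) : x * y = 0 := by
  have h1 : x.b = x.a := congrArg V.a hx
  have h2 : x.c = x.b := congrArg V.b hx
  have h3 : y.b = y.a := congrArg V.a hy
  have h4 : y.c = y.b := congrArg V.b hy
  ext <;> simp [h1, h2, h3, h4, CharTwo.add_self_eq_zero]

lemma solv_fixed : IsSolv (fixedSub (Subgroup.zpowers rot)) := by
  refine ⟨1, ?_⟩
  show mulSpan (fixedSub (Subgroup.zpowers rot)) (fixedSub (Subgroup.zpowers rot)) = ⊥
  rw [mulSpan, AddSubgroup.closure_eq_bot_iff]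
  rintro z ⟨x, hx, y, hy, rfl⟩
  exact fixed_mul x y (hx rot (Subgroup.mem_zpowers rot)) (hy rot (Subgroup.mem_zpowers rot))

lemma perfect : mulSpan (⊤ : AddSubgroup V) ⊤ = ⊤ := by
  rw [eq_top_iff]
  intro x _
  have h : x = (⟨0, x.a, 0⟩ : V) * ⟨0, 0, 1⟩ + ((⟨0, 0, x.b⟩ : V) * ⟨1, 0, 0⟩
      + (⟨x.c, 0, 0⟩ : V) * ⟨0, 1, 0⟩) := by
    ext <;> simp
  rw [h]
  refine add_mem ?_ (add_mem ?_ ?_) <;>
    exact AddSubgroup.subset_closure ⟨_, AddSubgroup.mem_top _, _, AddSubgroup.mem_top _, rfl⟩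

lemma not_solv : ¬ IsSolv (⊤ : AddSubgroup V) := by
  rintro ⟨k, hk⟩
  have h : ∀ k, derived (⊤ : AddSubgroup V) k = ⊤ := by
    intro k
    induction k with
    | zero => rfl
    | succ k ih =>
      show mulSpan (derived (⊤ : AddSubgroup V) k) (derived (⊤ : AddSubgroup V) k) = ⊤
      rw [ih, perfect]
  rw [h k] at hk
  have h1 : (⟨1, 0, 0⟩ : V) ∈ (⊥ : AddSubgroup V) := hk ▸ AddSubgroup.mem_top _
  rw [AddSubgroup.mem_bot] at h1
  have h2 := congrArg V.a h1
  exact absurd h2 (by decide)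

end V

/-- There is a Jordan ring `A` (which also satisfies the linearised Jordan identity) and a finite
group `G` of automorphisms of `A` such that `A` has no `|G|`-torsion and the fixed subring is
solvable, but `A` is not solvable. -/
theorem result : ∃ (A : Type) (_ : NonUnitalNonAssocRing A) (G : Subgroup (RingAut A)),
    IsJordanRing A ∧ IsLinJordan A ∧ Finite G ∧ (∀ a : A, Nat.card G • a = 0 → a = 0) ∧
      IsSolv (fixedSub G) ∧ ¬ IsSolv (⊤ : AddSubgroup A) := by
  refine ⟨V, inferInstance, Subgroup.zpowers V.rot, V.jordan, V.lin, ?_, ?_, V.solv_fixed,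
    V.not_solv⟩
  · exact Nat.finite_of_card_ne_zero (by rw [V.card_zp]; decide)
  · intro a ha
    rw [V.card_zp] at ha
    exact V.tors a ha

end Pool.Agent.Results.MP_8ae111_al.JordanCounterexample
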